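import Mathlib
import Pool.Agent.V11117.MExp2

namespace Pool.Agent.Results.MP_620d87_co.NotFromSwitching

open Finset Matrix Pool.Agent.V11117.MExp

/-- An oriented graph on `V`: a relation `arc a b` (there is an edge pointing from `a` to `b`)
with no loops and at most one direction for every pair (a finite simple graph with each edge
given a direction). -/
structure OrientedGraph (V : Type) where
  arc : V → V → Prop
  asymm : ∀ a b, arc a b → ¬ arc b a

section defs
variable {V : Type} [Fintype V] [DecidableEq V] (X : OrientedGraph V)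

open Classical in
/-- The skew-symmetric adjacency matrix: `1` if the edge points from `a` to `b`, `-1` if it
points from `b` to `a`, and `0` otherwise. -/
noncomputable def adj : Matrix V V ℂ :=
  Matrix.of fun a b => if X.arc a b then 1 else if X.arc b a then -1 else 0

/-- The transition matrix `U(t) = exp(tA)`. -/
noncomputable def U (t : ℝ) : Matrix V V ℂ := NormedSpace.exp ((t : ℂ) • adj X)

/-- Perfect state transfer from `a` to `b`. -/
def PST (a b : V) : Prop :=
  ∃ (t : ℝ) (l : ℂ), ‖l‖ = 1 ∧ U X t *ᵥ (Pi.single a 1) = l • (Pi.single b 1 : V → ℂ)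

/-- Multiple state transfer on `S`: perfect state transfer between every two distinct
vertices of `S`. -/
def MultipleStateTransfer (S : Set V) : Prop :=
  ∀ a ∈ S, ∀ b ∈ S, a ≠ b → PST X a b

/-- A switching automorphism `P̃ = P D`, with `P` a permutation matrix and `D` a diagonal
matrix with entries `1` or `-1`, such that `P̃ᵀ A P̃ = A`. -/
def IsSwitchingAut (Q : Matrix V V ℂ) : Prop :=
  ∃ (σ : Equiv.Perm V) (d : V → ℂ), (∀ v, d v = 1 ∨ d v = -1) ∧
    Q = σ.permMatrix ℂ * Matrix.diagonal d ∧ Qᵀ * adj X * Q = adj X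

/-- `Q` maps the vertex `a` to the vertex `c` up to sign: `Q e_a = ± e_c`. -/
def Maps (Q : Matrix V V ℂ) (a c : V) : Prop :=
  Q *ᵥ (Pi.single a 1) = (Pi.single c 1 : V → ℂ) ∨ Q *ᵥ (Pi.single a 1) = -(Pi.single c 1 : V → ℂ)

/-- The multiple state transfer on `S` arises from a switching automorphism: for some switching
automorphism `Q` and some `a ∈ S` there is perfect state transfer from `a` to `Q a`, and every
element of `S` is of the form `Q ^ k a`. -/
def ArisesFromSwitching (S : Set V) : Prop :=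
  ∃ Q : Matrix V V ℂ, IsSwitchingAut X Q ∧ ∃ a ∈ S, ∃ c, Maps Q a c ∧ PST X a c ∧
    ∀ s ∈ S, ∃ k : ℕ, Maps (Q ^ k) a s

end defs

/-- arcs of the witness, on `Fin 3 × Fin 28` (three centres `(i, 0)`, three layers) -/
def arcB (a b : Fin 3 × Fin 28) : Bool :=
  (decide (a.2.val = 0) && decide (b.2.val = 0) && decide ((a.1.val + 1) % 3 = b.1.val)) ||
  (decide (a.2.val = 0) && decide (b.2.val ≠ 0) && decide (a.1 = b.1)) ||
  (decide (a.2.val ≠ 0) && decide (b.2.val ≠ 0) &&
    ((decide (a.1.val = 1) && decide (b.1.val = 2) && decide (a.2 = b.2)) ||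
     (decide (a.1.val = 2) && decide (b.1.val = 0) && decide (a.2 = b.2)) ||
     (decide (a.1.val = 0) && decide (b.1.val = 1) &&
       (decide (a.2 = b.2) || decide ((b.2.val + 27 - a.2.val) % 27 = 1))) ||
     (decide (a.1.val = 1) && decide (b.1.val = 0) && decide ((a.2.val + 27 - b.2.val) % 27 = 2))))

/-- the integer adjacency matrix of the witness -/
def adjZ : Matrix (Fin 3 × Fin 28) (Fin 3 × Fin 28) ℤ :=
  Matrix.of fun a b => if arcB a b then 1 else if arcB b a then -1 else 0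

lemma arcB_asymm : ∀ a b, arcB a b = true → ¬ arcB b a = true := by decide +kernel

/-- the witness -/
def X0 : OrientedGraph (Fin 3 × Fin 28) where
  arc a b := arcB a b = true
  asymm := arcB_asymm

lemma adj_X0 : adj X0 = adjZ.map (Int.castRingHom ℂ) := by
  ext a b
  simp only [adj, Matrix.of_apply, X0, adjZ, Matrix.map_apply]
  split_ifs <;> simp

/-- cells: `2 i` is the centre `i` and `2 i + 1` the layer `i` -/
def cell (a : Fin 3 × Fin 28) : Fin 6 :=
  if a.2.val = 0 then ⟨2 * a.1.val, by omega⟩ else ⟨2 * a.1.val + 1, by omega⟩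

def B : Matrix (Fin 6) (Fin 6) ℤ :=
  !![0, 27, 1, 0, -1, 0;
     -1, 0, 0, 1, 0, -1;
     -1, 0, 0, 27, 1, 0;
     0, -1, -1, 0, 0, 1;
     1, 0, -1, 0, 0, 27;
     0, 1, 0, -1, -1, 0]

lemma equitable : ∀ a k, ∑ b, (if cell b = k then adjZ a b else 0) = B (cell a) k := by
  decide +kernel

section transfer

/-- time -/
noncomputable def tau : ℝ := 2 * Real.pi / (3 * √3)

lemma s3 : (√3 : ℝ) ^ 2 = 3 := Real.sq_sqrt (by norm_num)

lemma s3c : ((√3 : ℝ) : ℂ) ^ 2 = 3 := by
  rw [← Complex.ofReal_pow, s3]; norm_num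

lemma s3ne : ((√3 : ℝ) : ℂ) ≠ 0 := by
  intro h
  have := s3c
  rw [h] at this
  norm_num at this

/-- the primitive third root of unity -/
noncomputable def om : ℂ := -1 / 2 + ((√3 : ℝ) : ℂ) / 2 * Complex.I

lemma om_sq : om ^ 2 = -1 - om := by
  unfold om
  have := s3c
  have h2 : Complex.I ^ 2 = -1 := Complex.I_sq
  linear_combination (Complex.I ^ 2 / 4) * this + (3 / 4) * h2

lemma om_cube : om ^ 3 = 1 := by
  have h := om_sq
  linear_combination (om - 1) * h

lemma om_diff : om - om ^ 2 = ((√3 : ℝ) : ℂ) * Complex.I := by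
  rw [om_sq]; unfold om; ring

lemma exp_om : Complex.exp ((2 * Real.pi / 3 : ℝ) * Complex.I) = om := by
  have h : (2 * Real.pi / 3 : ℝ) = Real.pi - Real.pi / 3 := by ring
  rw [h, Complex.exp_mul_I, ← Complex.ofReal_cos, ← Complex.ofReal_sin, Real.cos_pi_sub,
    Real.sin_pi_sub, Real.cos_pi_div_three, Real.sin_pi_div_three]
  unfold om
  push_cast
  ring

lemma exp_om2 : Complex.exp (-((2 * Real.pi / 3 : ℝ) * Complex.I)) = om ^ 2 := by
  rw [Complex.exp_neg, exp_om]
  have h := om_cube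
  have h0 : om ≠ 0 := by
    intro h0; rw [h0] at h; norm_num at h
  field_simp
  linear_combination -h

/-- vectors on the cells -/
noncomputable def w (z k : ℂ) : Fin 6 → ℂ := ![1, k, z, k * z, z ^ 2, k * z ^ 2]

lemma w_eig (z k : ℂ) (hz : z ^ 3 = 1) (hk : 27 * k ^ 2 = -1) :
    (B.map (Int.castRingHom ℂ)) *ᵥ w z k = (z - z ^ 2 + 27 * k) • w z k := by
  funext i
  fin_cases i
  · simp [Matrix.mulVec, dotProduct, Fin.sum_univ_six, B, w]
    ring
  · simp [Matrix.mulVec, dotProduct, Fin.sum_univ_six, B, w]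
    linear_combination -hk
  · simp [Matrix.mulVec, dotProduct, Fin.sum_univ_six, B, w]
    linear_combination hz
  · simp [Matrix.mulVec, dotProduct, Fin.sum_univ_six, B, w]
    linear_combination k * hz - z * hk
  · simp [Matrix.mulVec, dotProduct, Fin.sum_univ_six, B, w]
    linear_combination (z - 1) * hz
  · simp [Matrix.mulVec, dotProduct, Fin.sum_univ_six, B, w]
    linear_combination (k * z - k) * hz - z ^ 2 * hk

/-- the constant `1/(3√3)` times `i` -/
noncomputable def kap : ℂ := Complex.I / (3 * ((√3 : ℝ) : ℂ))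

lemma kap_sq : 27 * kap ^ 2 = -1 := by
  unfold kap
  have h := s3c
  have h2 : Complex.I ^ 2 = -1 := Complex.I_sq
  have h0 := s3ne
  rw [div_pow, mul_pow, h, h2]
  norm_num

lemma tau_kap : (tau : ℂ) * (27 * kap) = 2 * Real.pi * Complex.I := by
  unfold tau kap
  have h := s3c
  have h0 := s3ne
  push_cast
  field_simp
  linear_combination (-9 : ℂ) * h

lemma U_w (z k : ℂ) (hz : z ^ 3 = 1) (hk : 27 * k ^ 2 = -1) :
    U X0 tau *ᵥ (w z k ∘ cell) = Complex.exp (tau * (z - z ^ 2 + 27 * k)) • (w z k ∘ cell) := by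
  unfold U
  apply exp_mulVec
  apply smul_mulVec_eig
  rw [adj_X0, quotient_mulVec adjZ B cell equitable, w_eig z k hz hk]
  rfl

/-- Fourier vectors on the centres -/
noncomputable def F (z : ℂ) : Fin 3 × Fin 28 → ℂ := (![1, 0, z, 0, z ^ 2, 0] : Fin 6 → ℂ) ∘ cell

lemma F_eq (z k : ℂ) : F z = (1 / 2 : ℂ) • (w z k ∘ cell) + (1 / 2 : ℂ) • (w z (-k) ∘ cell) := by
  have h : (![1, 0, z, 0, z ^ 2, 0] : Fin 6 → ℂ) = (1 / 2 : ℂ) • w z k + (1 / 2 : ℂ) • w z (-k) := by
    funext i
    fin_cases i <;> simp [w] <;> ring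
  unfold F
  rw [h]
  rfl

lemma U_F (z : ℂ) (hz : z ^ 3 = 1) :
    U X0 tau *ᵥ F z = Complex.exp (tau * (z - z ^ 2)) • F z := by
  have h1 := U_w z kap hz kap_sq
  have h2 := U_w z (-kap) hz (by rw [neg_sq]; exact kap_sq)
  have e1 : (tau : ℂ) * (z - z ^ 2 + 27 * kap) = tau * (z - z ^ 2) + 2 * Real.pi * Complex.I := by
    rw [mul_add, tau_kap]
  have e2 : (tau : ℂ) * (z - z ^ 2 + 27 * -kap) = tau * (z - z ^ 2) - 2 * Real.pi * Complex.I := by
    rw [mul_add, mul_neg, mul_neg, tau_kap]; ring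
  have e3 : Complex.exp (tau * (z - z ^ 2) - 2 * Real.pi * Complex.I)
      = Complex.exp (tau * (z - z ^ 2)) := Complex.exp_periodic.sub_eq _
  have e4 : Complex.exp (tau * (z - z ^ 2) + 2 * Real.pi * Complex.I)
      = Complex.exp (tau * (z - z ^ 2)) := Complex.exp_periodic _
  rw [e1, e4] at h1
  rw [e2, e3] at h2
  rw [F_eq z kap, Matrix.mulVec_add, Matrix.mulVec_smul, Matrix.mulVec_smul, h1, h2, smul_add,
    smul_comm, smul_comm (1 / 2 : ℂ)]

lemma U_F1 : U X0 tau *ᵥ F 1 = F 1 := by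
  rw [U_F 1 (by norm_num)]
  norm_num

lemma U_Fom : U X0 tau *ᵥ F om = om • F om := by
  rw [U_F om om_cube, om_diff]
  have : (tau : ℂ) * (((√3 : ℝ) : ℂ) * Complex.I) = (2 * Real.pi / 3 : ℝ) * Complex.I := by
    unfold tau
    have h0 := s3ne
    push_cast
    field_simp
  rw [this, exp_om]

lemma U_Fom2 : U X0 tau *ᵥ F (om ^ 2) = om ^ 2 • F (om ^ 2) := by
  have hz : (om ^ 2) ^ 3 = 1 := by
    rw [← pow_mul, mul_comm, pow_mul, om_cube]; norm_num
  rw [U_F (om ^ 2) hz]
  have h1 : om ^ 2 - (om ^ 2) ^ 2 = -(((√3 : ℝ) : ℂ) * Complex.I) := by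
    rw [← om_diff]
    linear_combination (-om) * om_cube
  have : (tau : ℂ) * (om ^ 2 - (om ^ 2) ^ 2) = -((2 * Real.pi / 3 : ℝ) * Complex.I) := by
    rw [h1]
    unfold tau
    have h0 := s3ne
    push_cast
    field_simp
  rw [this, exp_om2]

/-- the centres -/
def ctr (k : Fin 3) : Fin 3 × Fin 28 := (k, 0)

lemma single_eq (k : Fin 3) : (Pi.single (ctr k) 1 : Fin 3 × Fin 28 → ℂ)
    = (1 / 3 : ℂ) • (F 1 + om ^ (2 * k.val) • F om + om ^ k.val • F (om ^ 2)) := by
  have h := om_sq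
  have h3 := om_cube
  have hk : (Pi.single (ctr k) 1 : Fin 3 × Fin 28 → ℂ)
      = (![if k = 0 then 1 else 0, 0, if k = 1 then 1 else 0, 0, if k = 2 then 1 else 0, 0] :
        Fin 6 → ℂ) ∘ cell := by
    funext a
    obtain ⟨i, x⟩ := a
    rw [Pi.single_apply, Function.comp_apply, ctr]
    by_cases hx : x = 0
    · subst hx
      fin_cases i <;> fin_cases k <;> simp [cell]
    · have hx' : ¬ x.val = 0 := fun h => hx (Fin.ext h)
      rw [if_neg (by simp [hx])]
      fin_cases i <;> simp [cell, hx']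
  rw [hk]
  unfold F
  have hc : ∀ (u v w' : Fin 6 → ℂ) (p q r : ℂ), (r • (u ∘ cell + p • (v ∘ cell) + q • (w' ∘ cell)))
      = (r • (u + p • v + q • w')) ∘ cell := fun _ _ _ _ _ _ => rfl
  rw [hc]
  congr 1
  funext i
  fin_cases k <;> fin_cases i <;> simp <;> grind

lemma U_ctr (k l : Fin 3) (h : (l.val + 1) % 3 = k.val) :
    U X0 tau *ᵥ (Pi.single (ctr k) 1) = (Pi.single (ctr l) 1 : Fin 3 × Fin 28 → ℂ) := by
  have h3 := om_cube
  rw [single_eq k, single_eq l, Matrix.mulVec_smul, Matrix.mulVec_add, Matrix.mulVec_add,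
    Matrix.mulVec_smul, Matrix.mulVec_smul, U_F1, U_Fom, U_Fom2, smul_smul, smul_smul]
  have e1 : om ^ (2 * k.val) * om = om ^ (2 * l.val) := by
    fin_cases k <;> fin_cases l <;> simp at h ⊢ <;> grind
  have e2 : om ^ k.val * om ^ 2 = om ^ l.val := by
    fin_cases k <;> fin_cases l <;> simp at h ⊢ <;> grind
  rw [e1, e2]

/-- the set of the three centres -/
def S0 : Set (Fin 3 × Fin 28) := {a | a.2 = 0}

lemma pst1 (k l : Fin 3) (h : (l.val + 1) % 3 = k.val) : PST X0 (ctr k) (ctr l) :=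
  ⟨tau, 1, by simp, by rw [U_ctr k l h, one_smul]⟩

lemma pst2 (k m l : Fin 3) (h : (m.val + 1) % 3 = k.val) (h' : (l.val + 1) % 3 = m.val) :
    PST X0 (ctr k) (ctr l) := by
  refine ⟨tau + tau, 1, by simp, ?_⟩
  have e : U X0 (tau + tau) = U X0 tau * U X0 tau := by
    unfold U
    rw [← exp_add_smul]
    push_cast
    rfl
  rw [e, ← Matrix.mulVec_mulVec, U_ctr k m h, U_ctr m l h', one_smul]

lemma idx1 : ∀ i j : Fin 3, i ≠ j → (j.val + 1) % 3 = i.val ∨ (j.val + 2) % 3 = i.val := by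
  decide

lemma idx2 : ∀ i j : Fin 3, (j.val + 2) % 3 = i.val →
    ∃ m : Fin 3, (m.val + 1) % 3 = i.val ∧ (j.val + 1) % 3 = m.val := by
  decide

lemma mst : MultipleStateTransfer X0 S0 := by
  intro a ha b hb hab
  obtain ⟨i, x⟩ := a
  obtain ⟨j, y⟩ := b
  have hx : x = 0 := ha
  have hy : y = 0 := hb
  subst hx
  subst hy
  have hij : i ≠ j := by
    rintro rfl
    exact hab rfl
  rcases idx1 i j hij with h | h
  · exact pst1 i j h
  · obtain ⟨m, h1, h2⟩ := idx2 i j h
    exact pst2 i m j h1 h2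

end transfer

section switching

/-- degrees in the underlying graph -/
def dF (v : Fin 3 × Fin 28) : ℕ := if v.2.val = 0 then 29 else if v.1.val = 2 then 3 else 5

lemma deg_eq : ∀ v, (univ.filter (fun b => adjZ v b ≠ 0)).card = dF v := by decide +kernel

lemma char_c2 : ∀ v, dF v = 29 → (∀ w, adjZ v w ≠ 0 → dF w ≠ 5) → v = ctr 2 := by decide +kernel

lemma c2_nb : ∀ w, adjZ (ctr 2) w ≠ 0 → dF w ≠ 5 := by decide +kernel

lemma not_arises : ¬ ArisesFromSwitching X0 S0 := by
  rintro ⟨Q, ⟨σ, d, hd, hQ, hQA⟩, a, ha, c, -, -, hS⟩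
  set π : Equiv.Perm (Fin 3 × Fin 28) := σ.symm with hπ
  have hdne : ∀ v, d v ≠ 0 := fun v => by
    rcases hd v with h | h <;> rw [h] <;> norm_num
  -- entries of `Q`
  have hQe : ∀ x y, Q x y = if x = π y then d y else 0 := by
    intro x y
    rw [hQ, Matrix.mul_diagonal, Equiv.Perm.permMatrix, PEquiv.toMatrix_apply]
    by_cases hxy : x = π y
    · subst hxy
      simp [hπ]
    · have : ¬ σ x = y := fun h => hxy (by rw [hπ, ← h]; simp)
      simp [hxy, this]
  have hQs : ∀ y, Q *ᵥ (Pi.single y 1) = d y • (Pi.single (π y) 1 : Fin 3 × Fin 28 → ℂ) := by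
    intro y
    funext x
    rw [Matrix.mulVec_single_one, Matrix.col_apply, hQe, Pi.smul_apply, Pi.single_apply,
      smul_eq_mul]
    split_ifs <;> simp
  -- `π` preserves adjacency
  have hpres : ∀ x y, adjZ (π x) (π y) ≠ 0 ↔ adjZ x y ≠ 0 := by
    intro x y
    have h1 := congrFun (congrFun hQA x) y
    have h2 : (Qᵀ * adj X0 * Q) x y = d x * adj X0 (π x) (π y) * d y := by
      rw [Matrix.mul_apply]
      simp only [hQe, mul_ite, mul_zero]
      rw [Finset.sum_ite_eq', if_pos (mem_univ _), Matrix.mul_apply]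
      simp only [Matrix.transpose_apply, hQe, ite_mul, zero_mul]
      rw [Finset.sum_ite_eq', if_pos (mem_univ _)]
    rw [h2] at h1
    have h3 : ∀ p q, adj X0 p q ≠ 0 ↔ adjZ p q ≠ 0 := by
      intro p q
      rw [adj_X0, Matrix.map_apply, Int.coe_castRingHom, Ne, Int.cast_eq_zero]
    rw [← h3, ← h3, ← h1]
    constructor
    · intro h
      exact mul_ne_zero (mul_ne_zero (hdne x) h) (hdne y)
    · intro h h'
      rw [h'] at h
      simp at h
  have hdeg : ∀ x, dF (π x) = dF x := by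
    intro x
    rw [← deg_eq, ← deg_eq]
    symm
    apply Finset.card_bij (fun y _ => π y)
    · intro y hy
      rw [mem_filter] at hy ⊢
      exact ⟨mem_univ _, (hpres x y).mpr hy.2⟩
    · intro y _ y' _ h
      exact π.injective h
    · intro z hz
      rw [mem_filter] at hz
      refine ⟨π.symm z, ?_, by simp⟩
      rw [mem_filter]
      refine ⟨mem_univ _, ?_⟩
      rw [← hpres]
      simpa using hz.2
  have hfix : π (ctr 2) = ctr 2 := by
    apply char_c2
    · rw [hdeg]; rfl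
    · intro w hw
      have h1 : adjZ (ctr 2) (π.symm w) ≠ 0 := by
        rw [← hpres]
        simpa using hw
      have h2 := c2_nb _ h1
      rw [← hdeg] at h2
      simpa using h2
  -- powers
  have hpow : ∀ (k : ℕ) (y : Fin 3 × Fin 28), ∃ e : ℂ, e ≠ 0 ∧
      (Q ^ k) *ᵥ (Pi.single y 1) = e • (Pi.single ((π ^ k) y) 1 : Fin 3 × Fin 28 → ℂ) := by
    intro k
    induction k with
    | zero =>
      intro y
      refine ⟨1, one_ne_zero, ?_⟩
      rw [pow_zero, pow_zero, Matrix.one_mulVec, one_smul]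
      rfl
    | succ k ih =>
      intro y
      obtain ⟨e, he, h⟩ := ih (π y)
      refine ⟨d y * e, mul_ne_zero (hdne y) he, ?_⟩
      rw [pow_succ, ← Matrix.mulVec_mulVec, hQs, Matrix.mulVec_smul, h, smul_smul, pow_succ]
      rfl
  have hmaps : ∀ (k : ℕ) (y z : Fin 3 × Fin 28), Maps (Q ^ k) y z → (π ^ k) y = z := by
    intro k y z h
    obtain ⟨e, he, h'⟩ := hpow k y
    by_contra hne
    have h0 : ((Q ^ k) *ᵥ (Pi.single y 1)) z = 0 := by
      rw [h', Pi.smul_apply, Pi.single_apply, if_neg (fun h => hne h.symm), smul_zero]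
    rcases h with h | h
    · rw [h] at h0
      simp at h0
    · rw [h] at h0
      simp at h0
  have hfixk : ∀ k : ℕ, (π ^ k) (ctr 2) = ctr 2 := by
    intro k
    induction k with
    | zero => rfl
    | succ k ih => rw [pow_succ, Equiv.Perm.mul_apply, hfix, ih]
  obtain ⟨k, hk⟩ := hS (ctr 2) rfl
  have h1 := hmaps k a (ctr 2) hk
  have h2 : a = ctr 2 := (π ^ k).injective (h1.trans (hfixk k).symm)
  obtain ⟨k', hk'⟩ := hS (ctr 0) rfl
  have h3 := hmaps k' a (ctr 0) hk'
  rw [h2, hfixk] at h3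
  exact absurd h3 (by decide)

end switching

/-- **Answer to Q1 (yes)**: non-trivial multiple state transfer that does not arise from a
switching automorphism. -/
theorem result : ∃ (V : Type) (_ : Fintype V) (_ : DecidableEq V) (X : OrientedGraph V)
    (S : Set V), 3 ≤ S.ncard ∧ MultipleStateTransfer X S ∧ ¬ ArisesFromSwitching X S := by
  refine ⟨Fin 3 × Fin 28, inferInstance, inferInstance, X0, S0, ?_, mst, not_arises⟩
  have : S0 = ((univ.filter (fun a : Fin 3 × Fin 28 => a.2 = 0) : Finset (Fin 3 × Fin 28)) :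
      Set (Fin 3 × Fin 28)) := by
    ext a; simp [S0]
  rw [this, Set.ncard_coe_finset]
  decide +kernel

end Pool.Agent.Results.MP_620d87_co.NotFromSwitching
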